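import Mathlib

/-!
Arithmetic of the semigroups generated by `a + {0,x} + {0,y} + {0,z}` with
`x = p^2`, `y = p (p+2)`, `z = (p+2)^2`, `p` odd.
-/

namespace Pool.Agent.MP_62a449_al.Cube

/-- `val p i j l = i p^2 + j p (p+2) + l (p+2)^2`. -/
def val (p i j l : ℤ) : ℤ := i * p ^ 2 + j * (p * (p + 2)) + l * (p + 2) ^ 2

/-- Membership in the numerical semigroup generated by `p^2, p(p+2), (p+2)^2`. -/
def InH (p u : ℤ) : Prop := ∃ i j l : ℤ, 0 ≤ i ∧ 0 ≤ j ∧ 0 ≤ l ∧ u = val p i j l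

lemma kernel {p : ℤ} (hp : 1 ≤ p) (hc : IsCoprime p (p + 2)) {i j l : ℤ}
    (h : val p i j l = 0) :
    ∃ s t : ℤ, i = s * (p + 2) ∧ j = t * (p + 2) - s * p ∧ l = -(t * p) := by
  unfold val at h
  have h1 : (p + 2) ∣ i * p ^ 2 := ⟨-(j * p + l * (p + 2)), by linear_combination h⟩
  have hc1 : IsCoprime (p + 2) (p ^ 2) := (hc.symm).pow_right
  have h2 : (p + 2) ∣ i := hc1.dvd_of_dvd_mul_right h1
  obtain ⟨s, hs⟩ := h2
  have hq : (p + 2) ≠ 0 := by omega
  have h3 : s * p ^ 2 + j * p + l * (p + 2) = 0 := by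
    have : (p + 2) * (s * p ^ 2 + j * p + l * (p + 2)) = 0 := by
      rw [hs] at h; linear_combination h
    rcases mul_eq_zero.mp this with h' | h'
    · exact absurd h' hq
    · exact h'
  have h4 : p ∣ l * (p + 2) := ⟨-(s * p + j), by linear_combination h3⟩
  have h5 : p ∣ l := hc.dvd_of_dvd_mul_right h4
  obtain ⟨t, ht⟩ := h5
  have hp0 : p ≠ 0 := by omega
  have h6 : s * p + j + t * (p + 2) = 0 := by
    have : p * (s * p + j + t * (p + 2)) = 0 := by
      rw [ht] at h3; linear_combination h3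
    rcases mul_eq_zero.mp this with h' | h'
    · exact absurd h' hp0
    · exact h'
  refine ⟨s, -t, by rw [hs]; ring, by linear_combination h6, by rw [ht]; ring⟩

/-- The Frobenius number of `⟨p^2, p(p+2), (p+2)^2⟩`. -/
def ph (p : ℤ) : ℤ := (p + 1) * p ^ 2 + (p + 1) * (p * (p + 2)) - (p + 2) ^ 2

lemma InH.nonneg {p u : ℤ} (hp : 1 ≤ p) (h : InH p u) : 0 ≤ u := by
  obtain ⟨i, j, l, hi, hj, hl, rfl⟩ := h
  unfold val
  have : 0 ≤ p * (p + 2) := by nlinarith
  positivity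

lemma InH.add {p u v : ℤ} (h : InH p u) (h' : InH p v) : InH p (u + v) := by
  obtain ⟨i, j, l, hi, hj, hl, rfl⟩ := h
  obtain ⟨i', j', l', hi', hj', hl', rfl⟩ := h'
  exact ⟨i + i', j + j', l + l', by omega, by omega, by omega, by unfold val; ring⟩

lemma normal_form {p : ℤ} (hp : 1 ≤ p) (hc : IsCoprime p (p + 2)) (u : ℤ) :
    ∃ i j l : ℤ, 0 ≤ i ∧ i ≤ p + 1 ∧ 0 ≤ j ∧ j ≤ p + 1 ∧ u = val p i j l := by
  have hc1 : IsCoprime (p ^ 2) (p + 2) := hc.pow_left
  obtain ⟨b1, b2, hb⟩ := hc1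
  obtain ⟨c1, c2, hcc⟩ := hc
  obtain ⟨i0, hi0⟩ : ∃ x : ℤ, x = u * b1 := ⟨_, rfl⟩
  obtain ⟨A, hA⟩ : ∃ x : ℤ, x = i0 / (p + 2) := ⟨_, rfl⟩
  obtain ⟨v, hv⟩ : ∃ x : ℤ, x = u * b2 + A * p ^ 2 := ⟨_, rfl⟩
  obtain ⟨j0, hj0⟩ : ∃ x : ℤ, x = v * c1 := ⟨_, rfl⟩
  obtain ⟨B, hB⟩ : ∃ x : ℤ, x = j0 / (p + 2) := ⟨_, rfl⟩
  have hq : 0 < p + 2 := by omega
  refine ⟨i0 % (p + 2), j0 % (p + 2), v * c2 + B * p, Int.emod_nonneg _ (by omega),
    by have := Int.emod_lt_of_pos i0 hq; omega, Int.emod_nonneg _ (by omega),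
    by have := Int.emod_lt_of_pos j0 hq; omega, ?_⟩
  have e1 : i0 % (p + 2) = i0 - (p + 2) * A := by
    have := Int.emod_add_mul_ediv i0 (p + 2); rw [hA]; linarith
  have e2 : j0 % (p + 2) = j0 - (p + 2) * B := by
    have := Int.emod_add_mul_ediv j0 (p + 2); rw [hB]; linarith
  unfold val
  rw [e1, e2]
  have e3 : j0 * p + v * c2 * (p + 2) = v := by rw [hj0]; linear_combination v * hcc
  have e4 : i0 * p ^ 2 + u * b2 * (p + 2) = u := by rw [hi0]; linear_combination u * hb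
  linear_combination (-1 : ℤ) * e4 - (p + 2) * e3 - (p + 2) * hv

/-- Symmetry of `H`. -/
lemma InH_symm {p : ℤ} (hp : 1 ≤ p) (hc : IsCoprime p (p + 2)) (u : ℤ) :
    InH p (ph p - u) ↔ ¬ InH p u := by
  constructor
  · intro h h'
    have h2 : InH p (ph p) := by
      have := h.add h'
      rwa [sub_add_cancel] at this
    obtain ⟨i, j, l, hi, hj, hl, he⟩ := h2
    have h3 : val p (i - (p + 1)) (j - (p + 1)) (l + 1) = 0 := by
      unfold val ph at *
      linear_combination (-1 : ℤ) * he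
    obtain ⟨s, t, hs, ht, hl'⟩ := kernel hp hc h3
    have hs0 : 0 ≤ s := by
      by_contra hneg
      have : s ≤ -1 := by omega
      nlinarith
    have ht0 : t ≤ -1 := by
      by_contra hneg
      have : 0 ≤ t := by omega
      nlinarith
    nlinarith
  · intro h
    obtain ⟨i, j, l, hi, hi', hj, hj', he⟩ := normal_form hp hc u
    have hl : l ≤ -1 := by
      by_contra hneg
      exact h ⟨i, j, l, hi, hj, by omega, he⟩
    refine ⟨p + 1 - i, p + 1 - j, -1 - l, by omega, by omega, by omega, ?_⟩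
    rw [he]; unfold ph val; ring

lemma InH_of_gt {p u : ℤ} (hp : 1 ≤ p) (hc : IsCoprime p (p + 2)) (h : ph p < u) :
    InH p u := by
  by_contra hn
  have := (InH_symm hp hc u).mpr hn
  have := this.nonneg hp
  omega

/-- Key lemma: two representations, one `≥ 0` and one `≤ W`, give a representation in the cube
`[0,W]^3`, unless `W = p`. -/
lemma key {p : ℤ} (hp : 1 ≤ p) (N : ℕ) : ∀ (W A1 A2 A3 B1 B2 B3 s t : ℤ),
    s.natAbs + t.natAbs ≤ N → 0 ≤ A1 → 0 ≤ A2 → 0 ≤ A3 → B1 ≤ W → B2 ≤ W → B3 ≤ W →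
    A1 - B1 = s * (p + 2) → A2 - B2 = t * (p + 2) - s * p → A3 - B3 = -(t * p) →
    W ≠ p → 0 ≤ W →
    ∃ C1 C2 C3 : ℤ, 0 ≤ C1 ∧ C1 ≤ W ∧ 0 ≤ C2 ∧ C2 ≤ W ∧ 0 ≤ C3 ∧ C3 ≤ W ∧
      val p C1 C2 C3 = val p A1 A2 A3 := by
  induction N with
  | zero =>
    intro W A1 A2 A3 B1 B2 B3 s t hN hA1 hA2 hA3 hB1 hB2 hB3 h1 h2 h3 hW hW0
    have hs : s = 0 := by omega
    have ht : t = 0 := by omega
    subst hs; subst ht
    exact ⟨A1, A2, A3, hA1, by linarith, hA2, by linarith, hA3, by linarith, rfl⟩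
  | succ N ih =>
    intro W A1 A2 A3 B1 B2 B3 s t hN hA1 hA2 hA3 hB1 hB2 hB3 h1 h2 h3 hW hW0
    by_cases z : s = 0 ∧ t = 0
    · obtain ⟨hs, ht⟩ := z
      subst hs; subst ht
      exact ⟨A1, A2, A3, hA1, by linarith, hA2, by linarith, hA3, by linarith, rfl⟩
    by_cases m1 : 1 ≤ s ∧ p + 2 ≤ A1
    · obtain ⟨C1, C2, C3, a1, a2, a3, a4, a5, a6, a7⟩ := ih W (A1 - (p + 2)) (A2 + p) A3 B1 B2 B3
        (s - 1) t (by omega) (by omega) (by omega) hA3 hB1 hB2 hB3 (by linarith) (by linarith)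
        h3 hW hW0
      exact ⟨C1, C2, C3, a1, a2, a3, a4, a5, a6, by rw [a7]; unfold val; ring⟩
    by_cases m2 : 1 ≤ s ∧ B1 + (p + 2) ≤ W
    · exact ih W A1 A2 A3 (B1 + (p + 2)) (B2 - p) B3 (s - 1) t
        (by omega) hA1 hA2 hA3 (by omega) (by omega) hB3 (by linarith) (by linarith) h3 hW hW0
    by_cases m3 : s ≤ -1 ∧ p ≤ A2
    · obtain ⟨C1, C2, C3, a1, a2, a3, a4, a5, a6, a7⟩ := ih W (A1 + (p + 2)) (A2 - p) A3 B1 B2 B3
        (s + 1) t (by omega) (by omega) (by omega) hA3 hB1 hB2 hB3 (by linarith) (by linarith)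
        h3 hW hW0
      exact ⟨C1, C2, C3, a1, a2, a3, a4, a5, a6, by rw [a7]; unfold val; ring⟩
    by_cases m4 : s ≤ -1 ∧ B2 + p ≤ W
    · exact ih W A1 A2 A3 (B1 - (p + 2)) (B2 + p) B3 (s + 1) t
        (by omega) hA1 hA2 hA3 (by omega) (by omega) hB3 (by linarith) (by linarith) h3 hW hW0
    by_cases m5 : 1 ≤ t ∧ p + 2 ≤ A2
    · obtain ⟨C1, C2, C3, a1, a2, a3, a4, a5, a6, a7⟩ := ih W A1 (A2 - (p + 2)) (A3 + p) B1 B2 B3
        s (t - 1) (by omega) hA1 (by omega) (by omega) hB1 hB2 hB3 h1 (by linarith) (by linarith)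
        hW hW0
      exact ⟨C1, C2, C3, a1, a2, a3, a4, a5, a6, by rw [a7]; unfold val; ring⟩
    by_cases m6 : 1 ≤ t ∧ B2 + (p + 2) ≤ W
    · exact ih W A1 A2 A3 B1 (B2 + (p + 2)) (B3 - p) s (t - 1)
        (by omega) hA1 hA2 hA3 hB1 (by omega) (by omega) h1 (by linarith) (by linarith) hW hW0
    by_cases m7 : t ≤ -1 ∧ p ≤ A3
    · obtain ⟨C1, C2, C3, a1, a2, a3, a4, a5, a6, a7⟩ := ih W A1 (A2 + (p + 2)) (A3 - p) B1 B2 B3
        s (t + 1) (by omega) hA1 (by omega) (by omega) hB1 hB2 hB3 h1 (by linarith) (by linarith)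
        hW hW0
      exact ⟨C1, C2, C3, a1, a2, a3, a4, a5, a6, by rw [a7]; unfold val; ring⟩
    by_cases m8 : t ≤ -1 ∧ B3 + p ≤ W
    · exact ih W A1 A2 A3 B1 (B2 - (p + 2)) (B3 + p) s (t + 1)
        (by omega) hA1 hA2 hA3 hB1 (by omega) (by omega) h1 (by linarith) (by linarith) hW hW0
    exfalso
    rcases lt_trichotomy s 0 with hs | hs | hs
    · -- s ≤ -1
      have hs1 : s ≤ -1 := by omega
      have hA2' : A2 < p := by
        by_contra hh; exact m3 ⟨hs1, by omega⟩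
      have hB2' : W < B2 + p := by
        by_contra hh; exact m4 ⟨hs1, by omega⟩
      have hWq : p + 2 ≤ W := by nlinarith
      have hsp : p ≤ -(s * p) := by nlinarith
      rcases lt_or_ge t 0 with ht | ht
      · have ht1 : t ≤ -1 := by omega
        have hA3' : A3 < p := by
          by_contra hh; exact m7 ⟨ht1, by omega⟩
        have hB3' : W < B3 + p := by
          by_contra hh; exact m8 ⟨ht1, by omega⟩
        nlinarith
      · have : 0 ≤ t * (p + 2) := by positivity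
        linarith
    · subst hs
      rcases lt_trichotomy t 0 with ht | ht | ht
      · have ht1 : t ≤ -1 := by omega
        have hA3' : A3 < p := by
          by_contra hh; exact m7 ⟨ht1, by omega⟩
        have hB3' : W < B3 + p := by
          by_contra hh; exact m8 ⟨ht1, by omega⟩
        have hWq : p + 2 ≤ W := by nlinarith
        nlinarith
      · exact z ⟨rfl, ht⟩
      · have ht1 : 1 ≤ t := by omega
        have hA2' : A2 < p + 2 := by
          by_contra hh; exact m5 ⟨ht1, by omega⟩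
        have hB2' : W < B2 + (p + 2) := by
          by_contra hh; exact m6 ⟨ht1, by omega⟩
        have htt : t = 1 := by
          by_contra hne
          have : 2 ≤ t := by omega
          nlinarith
        subst htt
        apply hW; linarith
    · have hs1 : 1 ≤ s := by omega
      have hA1' : A1 < p + 2 := by
        by_contra hh; exact m1 ⟨hs1, by omega⟩
      have hB1' : W < B1 + (p + 2) := by
        by_contra hh; exact m2 ⟨hs1, by omega⟩
      have hss : s = 1 := by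
        by_contra hne
        have : 2 ≤ s := by omega
        nlinarith
      subst hss
      have hWp : W ≤ p := by linarith
      rcases lt_trichotomy t 0 with ht | ht | ht
      · have : t ≤ -1 := by omega
        nlinarith
      · subst ht
        apply hW; linarith
      · have : p ≤ t * p := by nlinarith
        apply hW; linarith

/-- `p^2 + p(p+2) + (p+2)^2`. -/
def sg (p : ℤ) : ℤ := p ^ 2 + p * (p + 2) + (p + 2) ^ 2

/-- The smallest generator. -/
def aa (p : ℤ) : ℤ := 4 * (p + 1) * sg p - 2 * ph p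

/-- The largest of the eight generators. -/
def cc (p : ℤ) : ℤ := aa p + sg p

/-- The Frobenius number. -/
def FF (p : ℤ) : ℤ := (4 * (p + 1) + 1) * aa p + ph p

lemma sg_eq (p : ℤ) : sg p = 3 * p ^ 2 + 6 * p + 4 := by unfold sg; ring
lemma ph_eq (p : ℤ) : ph p = 2 * p ^ 3 + 3 * p ^ 2 - 2 * p - 4 := by unfold ph; ring
lemma aa_eq (p : ℤ) : aa p = 8 * p ^ 3 + 30 * p ^ 2 + 44 * p + 24 := by
  unfold aa sg ph; ring

lemma sg_pos {p : ℤ} (hp : 1 ≤ p) : 0 < sg p := by rw [sg_eq]; positivity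
lemma aa_pos {p : ℤ} (hp : 1 ≤ p) : 0 < aa p := by rw [aa_eq]; positivity
lemma ph_lt_aa {p : ℤ} (hp : 1 ≤ p) : ph p < aa p := by
  rw [ph_eq, aa_eq]; nlinarith [pow_pos (show 0 < p by omega) 3, pow_pos (show 0 < p by omega) 2]
lemma psg_lt_aa {p : ℤ} (hp : 1 ≤ p) : (p + 1) * sg p < aa p := by
  rw [sg_eq, aa_eq]; nlinarith [pow_pos (show 0 < p by omega) 3, pow_pos (show 0 < p by omega) 2]
lemma sg_lt_aa {p : ℤ} (hp : 1 ≤ p) : sg p < aa p := by
  rw [sg_eq, aa_eq]; nlinarith [pow_pos (show 0 < p by omega) 3, pow_pos (show 0 < p by omega) 2]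
lemma ph_ge {p : ℤ} (hp : 1 ≤ p) : -1 ≤ ph p := by
  rw [ph_eq]; nlinarith [pow_pos (show 0 < p by omega) 3, pow_pos (show 0 < p by omega) 2]
lemma FF_gt {p : ℤ} (hp : 1 ≤ p) : 2 * (p * cc p) < FF p := by
  have h1 := psg_lt_aa hp
  have h2 := sg_pos hp
  have h3 := ph_ge hp
  have h4 := aa_pos hp
  unfold FF cc
  nlinarith

/-- Membership in the symmetric overgroup. -/
def InT (p x : ℤ) : Prop := ∃ W : ℤ, InH p (x - W * aa p) ∧ InH p (W * cc p - x)

/-- Membership in the semigroup with eight generators. -/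
def InG (p x : ℤ) : Prop := ∃ W i j l : ℤ, 0 ≤ i ∧ i ≤ W ∧ 0 ≤ j ∧ j ≤ W ∧ 0 ≤ l ∧ l ≤ W ∧
  x = W * aa p + val p i j l

lemma InG.inT {p x : ℤ} (h : InG p x) : InT p x := by
  obtain ⟨W, i, j, l, hi, hi', hj, hj', hl, hl', rfl⟩ := h
  refine ⟨W, ⟨i, j, l, hi, hj, hl, by ring⟩, ⟨W - i, W - j, W - l, by omega, by omega, by omega, ?_⟩⟩
  unfold cc sg val; ring

lemma W_nonneg {p x W : ℤ} (hp : 1 ≤ p) (h1 : InH p (x - W * aa p))
    (h2 : InH p (W * cc p - x)) : 0 ≤ W := by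
  have h3 := h1.nonneg hp
  have h4 := h2.nonneg hp
  have h5 := sg_pos hp
  have h6 : 0 ≤ W * sg p := by unfold cc at h4; linarith
  by_contra hneg
  have : W ≤ -1 := by omega
  nlinarith

lemma T_to_G {p x W : ℤ} (hp : 1 ≤ p) (hc : IsCoprime p (p + 2)) (h1 : InH p (x - W * aa p))
    (h2 : InH p (W * cc p - x)) (hW : W ≠ p) : InG p x := by
  have hW0 := W_nonneg hp h1 h2
  obtain ⟨i, j, l, hi, hj, hl, he⟩ := h1
  obtain ⟨i', j', l', hi', hj', hl', he'⟩ := h2
  have h3 : val p (i - (W - i')) (j - (W - j')) (l - (W - l')) = 0 := by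
    unfold val at *
    unfold cc sg at he'
    linear_combination (-1 : ℤ) * he - he'
  obtain ⟨s, t, e1, e2, e3⟩ := kernel hp hc h3
  obtain ⟨C1, C2, C3, a1, a2, a3, a4, a5, a6, a7⟩ := key hp (s.natAbs + t.natAbs) W i j l
    (W - i') (W - j') (W - l') s t le_rfl hi hj hl (by omega) (by omega) (by omega) e1 e2 e3 hW hW0
  exact ⟨W, C1, C2, C3, a1, a2, a3, a4, a5, a6, by rw [a7, ← he]; ring⟩

lemma InG.add {p x y : ℤ} (h : InG p x) (h' : InG p y) : InG p (x + y) := by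
  obtain ⟨W, i, j, l, hi, hi', hj, hj', hl, hl', rfl⟩ := h
  obtain ⟨W', i', j', l', ki, ki', kj, kj', kl, kl', rfl⟩ := h'
  exact ⟨W + W', i + i', j + j', l + l', by omega, by omega, by omega, by omega, by omega,
    by omega, by unfold val; ring⟩

lemma InT.nonneg {p x : ℤ} (hp : 1 ≤ p) (h : InT p x) : 0 ≤ x := by
  obtain ⟨W, h1, h2⟩ := h
  have h3 := W_nonneg hp h1 h2
  have h4 := h1.nonneg hp
  have h5 := aa_pos hp
  nlinarith

lemma InT.ge {p x : ℤ} (hp : 1 ≤ p) (h : InT p x) (hx : x ≠ 0) : aa p ≤ x := by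
  obtain ⟨W, h1, h2⟩ := h
  have h3 := W_nonneg hp h1 h2
  have h4 := h1.nonneg hp
  have h4' := h2.nonneg hp
  have h5 := aa_pos hp
  rcases h3.eq_or_lt with h6 | h6
  · subst h6; exfalso; apply hx; linarith
  · have : 1 ≤ W := by omega
    nlinarith

/-- The elements of `T` outside `G` are killed by every nonzero element of `T`. -/
lemma add_mem_G {p x y : ℤ} (hp : 1 ≤ p) (hc : IsCoprime p (p + 2)) (hx : InT p x)
    (hxG : ¬ InG p x) (hy : InT p y) (hy0 : y ≠ 0) : InG p (x + y) := by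
  obtain ⟨W, h1, h2⟩ := hx
  have hW : W = p := by
    by_contra hne
    exact hxG (T_to_G hp hc h1 h2 hne)
  obtain ⟨W', h1', h2'⟩ := hy
  have hW' := W_nonneg hp h1' h2'
  have hW1 : W' ≠ 0 := by
    rintro rfl
    have := h1'.nonneg hp
    have := h2'.nonneg hp
    apply hy0; linarith
  refine T_to_G (W := W + W') hp hc ?_ ?_ (by omega)
  · have := h1.add h1'
    convert this using 1; ring
  · have := h2.add h2'
    convert this using 1; ring

lemma le_of_not_G {p x : ℤ} (hp : 1 ≤ p) (hc : IsCoprime p (p + 2)) (hx : InT p x)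
    (hxG : ¬ InG p x) : x ≤ p * cc p := by
  obtain ⟨W, h1, h2⟩ := hx
  have hW : W = p := by
    by_contra hne
    exact hxG (T_to_G hp hc h1 h2 hne)
  have := h2.nonneg hp
  rw [hW] at this; linarith

lemma InH_down {p x : ℤ} (hp : 1 ≤ p) (hc : IsCoprime p (p + 2)) {W : ℤ}
    (h : InH p (x - W * aa p)) {V : ℤ} (hV : V ≤ W) : InH p (x - V * aa p) := by
  rcases hV.eq_or_lt with h6 | h6
  · rwa [h6]
  · apply InH_of_gt hp hc
    have h1 := h.nonneg hp
    have h2 := ph_lt_aa hp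
    have h3 := aa_pos hp
    have : V + 1 ≤ W := by omega
    nlinarith

lemma InH_up {p x : ℤ} (hp : 1 ≤ p) (hc : IsCoprime p (p + 2)) {W : ℤ}
    (h : InH p (W * cc p - x)) {V : ℤ} (hV : W ≤ V) : InH p (V * cc p - x) := by
  rcases hV.eq_or_lt with h6 | h6
  · rwa [← h6]
  · apply InH_of_gt hp hc
    have h1 := h.nonneg hp
    have h2 := ph_lt_aa hp
    have h3 := aa_pos hp
    have h4 := sg_pos hp
    have : W + 1 ≤ V := by omega
    have h5 : cc p = aa p + sg p := rfl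
    nlinarith

/-- `T` is symmetric with Frobenius number `FF p`. -/
lemma T_symm {p : ℤ} (hp : 1 ≤ p) (hc : IsCoprime p (p + 2)) (x : ℤ) :
    InT p (FF p - x) ↔ ¬ InT p x := by
  have key1 : ∀ V : ℤ, InH p (FF p - x - V * aa p) ↔
      ¬ InH p (x - ((4 * (p + 1) + 1) - V) * aa p) := by
    intro V
    rw [← InH_symm hp hc]
    have : ph p - (x - ((4 * (p + 1) + 1) - V) * aa p) = FF p - x - V * aa p := by
      unfold FF; ring
    rw [this]
  have key2 : ∀ V : ℤ, InH p (V * cc p - (FF p - x)) ↔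
      ¬ InH p ((4 * (p + 1) - V) * cc p - x) := by
    intro V
    rw [← InH_symm hp hc]
    have : ph p - ((4 * (p + 1) - V) * cc p - x) = V * cc p - (FF p - x) := by
      unfold FF cc aa; ring
    rw [this]
  constructor
  · rintro ⟨V, h1, h2⟩ ⟨W, h3, h4⟩
    rw [key1] at h1
    rw [key2] at h2
    rcases le_or_gt ((4 * (p + 1) + 1) - V) W with h | h
    · exact h1 (InH_down hp hc h3 h)
    · exact h2 (InH_up hp hc h4 (by omega))
  · intro hx
    -- the greatest `W` with `x - W a ∈ H`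
    have hex : ∃ W : ℤ, InH p (x - W * aa p) := by
      refine ⟨-(|x| + |ph p| + 1), InH_of_gt hp hc ?_⟩
      have h3 := aa_pos hp
      have h4 : 0 ≤ |x| + |ph p| := by positivity
      have h5 := le_abs_self (ph p)
      have h6 := neg_abs_le x
      nlinarith
    have hbd : ∃ b : ℤ, ∀ W : ℤ, InH p (x - W * aa p) → W ≤ b := by
      refine ⟨|x|, fun W hW => ?_⟩
      have h1 := hW.nonneg hp
      have h3 := aa_pos hp
      have h5 := le_abs_self x
      by_contra hneg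
      have : |x| + 1 ≤ W := by omega
      have h7 : 0 ≤ |x| := abs_nonneg x
      nlinarith
    obtain ⟨W, hW, hmax⟩ := Int.exists_greatest_of_bdd hbd hex
    refine ⟨4 * (p + 1) - W, ?_, ?_⟩
    · rw [key1]
      intro h
      have := hmax _ h
      omega
    · rw [key2]
      intro h
      apply hx
      refine ⟨W, hW, ?_⟩
      have : 4 * (p + 1) - (4 * (p + 1) - W) = W := by ring
      rwa [this] at h

/-- The elements of `T` outside `G` that we use. -/
def pl (p l : ℤ) : ℤ := p * aa p + val p (p + 1) 0 l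

lemma pl_inT {p l : ℤ} (hp : 1 ≤ p) (hl : 0 ≤ l) (hl' : l ≤ p) : InT p (pl p l) := by
  refine ⟨p, ⟨p + 1, 0, l, by omega, le_rfl, hl, by unfold pl; ring⟩,
    ⟨p + 1, 0, p - l, by omega, le_rfl, by omega, ?_⟩⟩
  unfold pl cc sg val; ring

lemma pl_notG {p l : ℤ} (hp : 1 ≤ p) (hc : IsCoprime p (p + 2)) (hl : 0 ≤ l) (hl' : l ≤ p) :
    ¬ InG p (pl p l) := by
  rintro ⟨W, C1, C2, C3, a1, a2, a3, a4, a5, a6, a7⟩
  have hsg := sg_pos hp
  have haa := psg_lt_aa hp
  have haa0 := aa_pos hp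
  have hval : 0 ≤ val p C1 C2 C3 ∧ val p C1 C2 C3 ≤ W * sg p := by
    constructor
    · unfold val; have : 0 ≤ p * (p + 2) := by nlinarith
      positivity
    · unfold val sg
      have h1 : C1 * p ^ 2 ≤ W * p ^ 2 := by nlinarith [sq_nonneg p]
      have h2 : C2 * (p * (p + 2)) ≤ W * (p * (p + 2)) :=
        mul_le_mul_of_nonneg_right a4 (by nlinarith)
      have h3 : C3 * (p + 2) ^ 2 ≤ W * (p + 2) ^ 2 := by nlinarith [sq_nonneg (p + 2)]
      nlinarith
  have hval2 : 0 ≤ val p (p + 1) 0 l ∧ val p (p + 1) 0 l ≤ p * sg p := by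
    have e : p * sg p - val p (p + 1) 0 l = val p (p + 1) 0 (p - l) := by
      unfold sg val; ring
    have h1 : 0 ≤ val p (p + 1) 0 l := by unfold val; positivity
    have h2 : 0 ≤ val p (p + 1) 0 (p - l) := by
      have : 0 ≤ p - l := by omega
      unfold val; positivity
    exact ⟨h1, by linarith⟩
  have hWp : W = p := by
    rcases lt_trichotomy W p with h | h | h
    · exfalso
      have h1 : W ≤ p - 1 := by omega
      unfold pl at a7
      have : p * aa p ≤ W * aa p + W * sg p := by linarith [hval2.1, hval.2]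
      nlinarith
    · exact h
    · exfalso
      have h1 : p + 1 ≤ W := by omega
      unfold pl at a7
      have : W * aa p ≤ p * aa p + p * sg p := by linarith [hval2.2, hval.1]
      nlinarith
  subst hWp
  have h0 : val W (W + 1 - C1) (0 - C2) (l - C3) = 0 := by
    unfold pl at a7
    unfold val at *
    linear_combination a7
  obtain ⟨s, t, e1, e2, e3⟩ := kernel hp hc h0
  have hs1 : 0 < s := by
    by_contra hneg
    have : s ≤ 0 := by omega
    nlinarith
  nlinarith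

end Pool.Agent.MP_62a449_al.Cube
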