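import Mathlib

/-!
Numerical semigroups: embedding dimension, pseudo-Frobenius numbers, type, almost symmetry.
-/

namespace Pool.Agent.MP_62a449_al

/-- A submonoid `Γ` of `ℕ` seen as a set of integers. -/
def asInt (Γ : AddSubmonoid ℕ) : Set ℤ := {x | ∃ n ∈ Γ, (n : ℤ) = x}

/-- A numerical semigroup: a submonoid of `ℕ` with finite complement. -/
def IsNumericalSemigroup (Γ : AddSubmonoid ℕ) : Prop := {n : ℕ | n ∉ Γ}.Finite

/-- The embedding dimension: the least number of elements of a generating set. -/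
noncomputable def embDim (Γ : AddSubmonoid ℕ) : ℕ :=
  sInf {k | ∃ s : Finset ℕ, AddSubmonoid.closure (s : Set ℕ) = Γ ∧ s.card = k}

/-- The pseudo-Frobenius numbers: integers `x ∉ Γ` with `x + s ∈ Γ` for every nonzero `s ∈ Γ`. -/
def pseudoFrobenius (Γ : AddSubmonoid ℕ) : Set ℤ :=
  {x | x ∉ asInt Γ ∧ ∀ s ∈ asInt Γ, s ≠ 0 → x + s ∈ asInt Γ}

/-- The type: the number of pseudo-Frobenius numbers. -/
noncomputable def semigroupType (Γ : AddSubmonoid ℕ) : ℕ := (pseudoFrobenius Γ).ncard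

/-- Almost symmetric: with `F` the largest integer outside `Γ`, every integer `x ∉ Γ` satisfies
`F - x ∈ Γ`, or both `x` and `F - x` are pseudo-Frobenius numbers. -/
def IsAlmostSymmetric (Γ : AddSubmonoid ℕ) : Prop :=
  ∃ F : ℤ, IsGreatest {x | x ∉ asInt Γ} F ∧
    ∀ x, x ∉ asInt Γ → F - x ∈ asInt Γ ∨ (x ∈ pseudoFrobenius Γ ∧ F - x ∈ pseudoFrobenius Γ)

/-- The supremum of the types of the almost symmetric numerical semigroups of embedding
dimension `e`. -/
noncomputable def maxType (e : ℕ) : ℕ∞ :=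
  ⨆ Γ : {Γ : AddSubmonoid ℕ // IsNumericalSemigroup Γ ∧ IsAlmostSymmetric Γ ∧ embDim Γ = e},
    (semigroupType Γ.1 : ℕ∞)

end Pool.Agent.MP_62a449_al
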