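import Mathlib
import Pool.Agent.Lib.MP_62a449_al.Defs
import Pool.Agent.Lib.MP_62a449_al.Cube

namespace Pool.Agent.MP_62a449_al.Cube

open Pool.Agent.MP_62a449_al

/-- `G` together with the `j` extra elements `pl 0, …, pl (j-1)`. -/
def InE (p j x : ℤ) : Prop := InG p x ∨ ∃ l : ℤ, 0 ≤ l ∧ l < j ∧ x = pl p l

lemma InG_zero (p : ℤ) : InG p 0 :=
  ⟨0, 0, 0, 0, le_rfl, le_rfl, le_rfl, le_rfl, le_rfl, le_rfl, by unfold val; ring⟩

variable {p j : ℤ}

lemma InE.inT (hp : 1 ≤ p) (hj : j ≤ p + 1) {x : ℤ} (h : InE p j x) : InT p x := by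
  rcases h with h | ⟨l, h1, h2, rfl⟩
  · exact h.inT
  · exact pl_inT hp h1 (by omega)

lemma InE.add (hp : 1 ≤ p) (hc : IsCoprime p (p + 2)) (hj : j ≤ p + 1) {x y : ℤ}
    (h : InE p j x) (h' : InE p j y) : InE p j (x + y) := by
  by_cases hx : x = 0
  · subst hx; simpa using h'
  by_cases hy : y = 0
  · subst hy; simpa using h
  left
  by_cases hxG : InG p x
  · by_cases hyG : InG p y
    · exact hxG.add hyG
    · rw [add_comm]
      exact add_mem_G hp hc (h'.inT hp hj) hyG (h.inT hp hj) hx
  · exact add_mem_G hp hc (h.inT hp hj) hxG (h'.inT hp hj) hy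

lemma InE_of_gt (hp : 1 ≤ p) (hc : IsCoprime p (p + 2)) {x : ℤ} (hx : FF p < x) :
    InE p j x := by
  have h1 : InT p x := by
    by_contra hn
    have := ((T_symm hp hc x).mpr hn).nonneg hp
    omega
  left
  by_contra hG
  have h2 := le_of_not_G hp hc h1 hG
  have h3 := FF_gt hp
  have h4 : 0 ≤ p * cc p := by
    have := aa_pos hp; have := sg_pos hp; unfold cc; positivity
  omega

lemma FF_not (hp : 1 ≤ p) (hc : IsCoprime p (p + 2)) (hj : j ≤ p + 1) : ¬ InE p j (FF p) := by
  intro h
  have h1 := h.inT hp hj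
  have h2 : InT p 0 := (InG_zero p).inT
  have h3 := (T_symm hp hc 0).mp (by simpa using h1)
  exact h3 h2

/-- elements of `T` outside `E` are pseudo-Frobenius -/
lemma pf_a (hp : 1 ≤ p) (hc : IsCoprime p (p + 2)) (hj : j ≤ p + 1) {x : ℤ}
    (hx : InT p x) (hxE : ¬ InE p j x) {y : ℤ} (hy : InE p j y) (hy0 : y ≠ 0) :
    InE p j (x + y) :=
  Or.inl (add_mem_G hp hc hx (fun h => hxE (Or.inl h)) (hy.inT hp hj) hy0)

lemma pf_b (hp : 1 ≤ p) (hc : IsCoprime p (p + 2)) (hj : j ≤ p + 1) {x : ℤ}
    (hx : InT p x) (hxE : ¬ InE p j x) {y : ℤ} (hy : InE p j y) (hy0 : y ≠ 0) :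
    InE p j (FF p - x + y) := by
  have hxG : ¬ InG p x := fun h => hxE (Or.inl h)
  have h1 : ¬ InT p (x - y) := by
    intro h
    by_cases h0 : x - y = 0
    · apply hxE; have : x = y := by omega
      rwa [this]
    · by_cases hG : InG p (x - y)
      · by_cases hyG : InG p y
        · apply hxG; have := hG.add hyG; rwa [sub_add_cancel] at this
        · apply hxG
          have := add_mem_G hp hc (hy.inT hp hj) hyG h h0
          rwa [add_sub_cancel] at this
      · apply hxG
        have := add_mem_G hp hc h hG (hy.inT hp hj) hy0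
        rwa [sub_add_cancel] at this
  have h2 : InT p (FF p - x + y) := by
    have := (T_symm hp hc (x - y)).mpr h1
    convert this using 1; ring
  left
  by_contra hG
  have h3 := le_of_not_G hp hc h2 hG
  have h4 := le_of_not_G hp hc hx hxG
  have h5 := FF_gt hp
  have h6 := (hy.inT hp hj).nonneg hp
  omega

/-- The numerical semigroup. -/
def Gam (p j : ℤ) (hp : 1 ≤ p) (hc : IsCoprime p (p + 2)) (hj : j ≤ p + 1) : AddSubmonoid ℕ where
  carrier := {n | InE p j (n : ℤ)}
  zero_mem' := by
    show InE p j ((0 : ℕ) : ℤ)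
    exact Or.inl (by simpa using InG_zero p)
  add_mem' := by
    intro a b ha hb
    show InE p j ((a + b : ℕ) : ℤ)
    push_cast
    exact InE.add hp hc hj ha hb

variable (hp : 1 ≤ p) (hc : IsCoprime p (p + 2)) (hj : j ≤ p + 1)

lemma mem_Gam {n : ℕ} : n ∈ Gam p j hp hc hj ↔ InE p j (n : ℤ) := Iff.rfl

lemma mem_asInt {x : ℤ} : x ∈ asInt (Gam p j hp hc hj) ↔ InE p j x := by
  constructor
  · rintro ⟨n, hn, rfl⟩; exact hn
  · intro h
    have h0 := (h.inT hp hj).nonneg hp
    refine ⟨x.toNat, ?_, Int.toNat_of_nonneg h0⟩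
    rw [mem_Gam, Int.toNat_of_nonneg h0]; exact h

lemma Gam_numerical : IsNumericalSemigroup (Gam p j hp hc hj) := by
  apply (Set.finite_Iic (FF p).toNat).subset
  intro n hn
  by_contra hgt
  apply hn
  rw [mem_Gam]
  apply InE_of_gt hp hc
  have : ¬ n ≤ (FF p).toNat := hgt
  omega

lemma Gam_almostSymmetric : IsAlmostSymmetric (Gam p j hp hc hj) := by
  refine ⟨FF p, ⟨?_, ?_⟩, ?_⟩
  · show FF p ∉ asInt _
    rw [mem_asInt]; exact FF_not hp hc hj
  · intro x hx
    by_contra hgt
    apply hx
    rw [mem_asInt]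
    exact InE_of_gt hp hc (by omega)
  · intro x hx
    rw [mem_asInt] at hx
    by_cases hxT : InT p x
    · right
      refine ⟨⟨by rw [mem_asInt]; exact hx, ?_⟩, ⟨?_, ?_⟩⟩
      · intro s hs hs0
        rw [mem_asInt] at *
        exact pf_a hp hc hj hxT hx hs hs0
      · rw [mem_asInt]
        intro h
        exact (T_symm hp hc x).mp (h.inT hp hj) hxT
      · intro s hs hs0
        rw [mem_asInt] at *
        exact pf_b hp hc hj hxT hx hs hs0
    · have h1 := (T_symm hp hc x).mpr hxT
      by_cases h2 : InE p j (FF p - x)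
      · left; rw [mem_asInt]; exact h2
      · right
        refine ⟨⟨by rw [mem_asInt]; exact hx, ?_⟩, ⟨by rw [mem_asInt]; exact h2, ?_⟩⟩
        · intro s hs hs0
          rw [mem_asInt] at *
          have := pf_b hp hc hj h1 h2 hs hs0
          convert this using 1; ring
        · intro s hs hs0
          rw [mem_asInt] at *
          exact pf_a hp hc hj h1 h2 hs hs0

lemma pl_inj {l l' : ℤ} (h : pl p l = pl p l') (hp : 1 ≤ p) : l = l' := by
  unfold pl val at h
  have h1 : (l - l') * (p + 2) ^ 2 = 0 := by linear_combination h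
  rcases mul_eq_zero.mp h1 with h2 | h2
  · omega
  · exfalso; have : 0 < (p + 2) ^ 2 := by positivity
    omega

lemma Gam_type (hj0 : 0 ≤ j) : (p + 1 - j).toNat ≤ semigroupType (Gam p j hp hc hj) := by
  have hfin : (pseudoFrobenius (Gam p j hp hc hj)).Finite := by
    apply (Set.finite_Icc (-(aa p)) (FF p)).subset
    intro x hx
    obtain ⟨h1, h2⟩ := hx
    rw [mem_asInt] at h1
    have ha : InE p j (aa p) := Or.inl ⟨1, 0, 0, 0, le_rfl, by norm_num, le_rfl, by norm_num,
      le_rfl, by norm_num, by unfold val; ring⟩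
    have h3 := h2 (aa p) (by rw [mem_asInt]; exact ha) (aa_pos hp).ne'
    rw [mem_asInt] at h3
    have h4 := (h3.inT hp hj).nonneg hp
    constructor
    · linarith
    · by_contra hgt
      exact h1 (InE_of_gt hp hc (by omega))
  have hsub : (fun i : ℕ => pl p (j + i)) '' (Finset.range (p + 1 - j).toNat : Set ℕ) ⊆
      pseudoFrobenius (Gam p j hp hc hj) := by
    rintro x ⟨i, hi, rfl⟩
    have hi' : i < (p + 1 - j).toNat := by simpa using hi
    have hT : InT p (pl p (j + i)) := pl_inT hp (by omega) (by omega)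
    have hE : ¬ InE p j (pl p (j + i)) := by
      rintro (h | ⟨l, h1, h2, h3⟩)
      · exact pl_notG hp hc (by omega) (by omega) h
      · have := pl_inj h3 hp
        omega
    refine ⟨by rw [mem_asInt]; exact hE, ?_⟩
    intro s hs hs0
    rw [mem_asInt] at *
    exact pf_a hp hc hj hT hE hs hs0
  have hcard := Set.ncard_le_ncard hsub hfin
  rw [Set.ncard_image_of_injective] at hcard
  · rw [Set.ncard_coe_finset, Finset.card_range] at hcard
    exact hcard
  · intro a b hab
    have := pl_inj hab hp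
    omega

/-- The generators (as integers): eight generators of `G` and `n` further elements. -/
def gen (p : ℤ) (n : ℕ) : (Fin 2 × Fin 2 × Fin 2) ⊕ Fin n → ℤ
  | Sum.inl e => aa p + val p (e.1 : ℕ) (e.2.1 : ℕ) (e.2.2 : ℕ)
  | Sum.inr i => pl p (i : ℕ)

lemma gen_inl_G (p : ℤ) (n : ℕ) (e : Fin 2 × Fin 2 × Fin 2) : InG p (gen p n (Sum.inl e)) := by
  obtain ⟨a, b, c⟩ := e
  refine ⟨1, (a : ℕ), (b : ℕ), (c : ℕ), by omega, by omega, by omega, by omega, by omega,
    by omega, ?_⟩
  simp [gen]

lemma gen_inE {n : ℕ} (s : (Fin 2 × Fin 2 × Fin 2) ⊕ Fin n) : InE p n (gen p n s) := by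
  rcases s with e | i
  · exact Or.inl (gen_inl_G p n e)
  · exact Or.inr ⟨(i : ℕ), by omega, by have := i.2; omega, rfl⟩

lemma gen_injective {n : ℕ} (hp : 1 ≤ p) (hc : IsCoprime p (p + 2)) (hn : (n : ℤ) ≤ p + 1) :
    Function.Injective (gen p n) := by
  intro s s' h
  rcases s with e | i <;> rcases s' with e' | i'
  · obtain ⟨a, b, c⟩ := e
    obtain ⟨a', b', c'⟩ := e'
    simp only [gen] at h
    have h0 : val p ((a : ℕ) - (a' : ℕ) : ℤ) ((b : ℕ) - (b' : ℕ) : ℤ)
        ((c : ℕ) - (c' : ℕ) : ℤ) = 0 := by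
      unfold val at *; linear_combination h
    obtain ⟨s, t, e1, e2, e3⟩ := kernel hp hc h0
    have ha := a.2
    have ha' := a'.2
    have hb := b.2
    have hb' := b'.2
    have hs : s = 0 := by
      by_contra hne
      rcases lt_or_gt_of_ne hne with h1 | h1
      · have : s ≤ -1 := by omega
        nlinarith
      · have : 1 ≤ s := by omega
        nlinarith
    subst hs
    have ht : t = 0 := by
      by_contra hne
      rcases lt_or_gt_of_ne hne with h1 | h1
      · have : t ≤ -1 := by omega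
        nlinarith
      · have : 1 ≤ t := by omega
        nlinarith
    subst ht
    have h1 : a = a' := by apply Fin.ext; omega
    have h2 : b = b' := by apply Fin.ext; omega
    have h3 : c = c' := by apply Fin.ext; omega
    rw [h1, h2, h3]
  · exfalso
    have h1 := gen_inl_G p n e
    rw [h] at h1
    exact pl_notG hp hc (by omega) (by have := i'.2; omega) h1
  · exfalso
    have h1 := gen_inl_G p n e'
    rw [← h] at h1
    exact pl_notG hp hc (by omega) (by have := i.2; omega) h1
  · have h1 : ((i : ℕ) : ℤ) = ((i' : ℕ) : ℤ) := pl_inj h hp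
    have h2 : i = i' := by apply Fin.ext; omega
    rw [h2]

lemma gen_irred {n : ℕ} (hp : 1 ≤ p) (hc : IsCoprime p (p + 2)) (hn : (n : ℤ) ≤ p + 1)
    (s : (Fin 2 × Fin 2 × Fin 2) ⊕ Fin n) {u v : ℤ} (hu : InE p n u) (hv : InE p n v)
    (hu0 : u ≠ 0) (hv0 : v ≠ 0) : gen p n s ≠ u + v := by
  intro h
  have hu' := hu.inT hp hn
  have hv' := hv.inT hp hn
  rcases s with e | i
  · obtain ⟨a, b, c⟩ := e
    simp only [gen] at h
    have h1 := hu'.ge hp hu0
    have h2 := hv'.ge hp hv0
    have h3 := sg_lt_aa hp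
    have ha := a.2
    have hb := b.2
    have hc' := c.2
    have h4 : val p (a : ℕ) (b : ℕ) (c : ℕ) ≤ sg p := by
      unfold val sg
      have k1 : ((a : ℕ) : ℤ) * p ^ 2 ≤ 1 * p ^ 2 :=
        mul_le_mul_of_nonneg_right (by omega) (by positivity)
      have k2 : ((b : ℕ) : ℤ) * (p * (p + 2)) ≤ 1 * (p * (p + 2)) :=
        mul_le_mul_of_nonneg_right (by omega) (by nlinarith)
      have k3 : ((c : ℕ) : ℤ) * (p + 2) ^ 2 ≤ 1 * (p + 2) ^ 2 :=
        mul_le_mul_of_nonneg_right (by omega) (by positivity)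
      linarith
    linarith
  · have hi := i.2
    apply pl_notG hp hc (l := (i : ℕ)) (by omega) (by omega)
    show InG p (gen p n (Sum.inr i))
    rw [h]
    by_cases huG : InG p u
    · by_cases hvG : InG p v
      · exact huG.add hvG
      · rw [add_comm]; exact add_mem_G hp hc hv' hvG hu' hu0
    · exact add_mem_G hp hc hu' huG hv' hv0

/-- The finset of generators as natural numbers. -/
noncomputable def genSet (p : ℤ) (n : ℕ) : Finset ℕ :=
  Finset.univ.image (fun s => (gen p n s).toNat)

lemma gen_nonneg {n : ℕ} (hp : 1 ≤ p) (hn : (n : ℤ) ≤ p + 1)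
    (s : (Fin 2 × Fin 2 × Fin 2) ⊕ Fin n) : 0 ≤ gen p n s :=
  ((gen_inE s).inT hp hn).nonneg hp

lemma genSet_card {n : ℕ} (hp : 1 ≤ p) (hc : IsCoprime p (p + 2)) (hn : (n : ℤ) ≤ p + 1) :
    (genSet p n).card = 8 + n := by
  unfold genSet
  rw [Finset.card_image_of_injective]
  · simp
  · intro s s' h
    apply gen_injective hp hc hn
    have h1 := gen_nonneg hp hn s
    have h2 := gen_nonneg hp hn s'
    simp only at h
    omega

lemma closure_genSet {n : ℕ} (hp : 1 ≤ p) (hc : IsCoprime p (p + 2)) (hn : (n : ℤ) ≤ p + 1) :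
    AddSubmonoid.closure (genSet p n : Set ℕ) = Gam p n hp hc hn := by
  apply le_antisymm
  · rw [AddSubmonoid.closure_le]
    intro x hx
    simp only [genSet, Finset.coe_image, Finset.coe_univ, Set.image_univ, Set.mem_range] at hx
    obtain ⟨s, rfl⟩ := hx
    show InE p n (((gen p n s).toNat : ℕ) : ℤ)
    rw [Int.toNat_of_nonneg (gen_nonneg hp hn s)]
    exact gen_inE s
  · have hmem : ∀ s, (gen p n s).toNat ∈ AddSubmonoid.closure (genSet p n : Set ℕ) := by
      intro s
      apply AddSubmonoid.subset_closure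
      simp only [genSet, Finset.coe_image, Finset.coe_univ, Set.image_univ, Set.mem_range]
      exact ⟨s, rfl⟩
    have hG : ∀ (W : ℕ) (i j l : ℤ), 0 ≤ i → i ≤ W → 0 ≤ j → j ≤ W → 0 ≤ l → l ≤ W →
        (W * aa p + val p i j l).toNat ∈ AddSubmonoid.closure (genSet p n : Set ℕ) := by
      intro W
      induction W with
      | zero =>
        intro i j l h1 h2 h3 h4 h5 h6
        have e1 : i = 0 := by simp at h2; omega
        have e2 : j = 0 := by simp at h4; omega
        have e3 : l = 0 := by simp at h6; omega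
        subst e1; subst e2; subst e3
        simp [val]
      | succ W ih =>
        intro i j l h1 h2 h3 h4 h5 h6
        push_cast at h2 h4 h6
        obtain ⟨ei, hei, hei'⟩ : ∃ e : Fin 2, 0 ≤ i - (e : ℕ) ∧ i - (e : ℕ) ≤ W := by
          by_cases h : i = 0
          · exact ⟨0, by simp [h], by simp [h]⟩
          · exact ⟨1, by simp; omega, by simp; omega⟩
        obtain ⟨ej, hej, hej'⟩ : ∃ e : Fin 2, 0 ≤ j - (e : ℕ) ∧ j - (e : ℕ) ≤ W := by
          by_cases h : j = 0
          · exact ⟨0, by simp [h], by simp [h]⟩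
          · exact ⟨1, by simp; omega, by simp; omega⟩
        obtain ⟨el, hel, hel'⟩ : ∃ e : Fin 2, 0 ≤ l - (e : ℕ) ∧ l - (e : ℕ) ≤ W := by
          by_cases h : l = 0
          · exact ⟨0, by simp [h], by simp [h]⟩
          · exact ⟨1, by simp; omega, by simp; omega⟩
        have h7 := ih _ _ _ hei hei' hej hej' hel hel'
        have h8 := hmem (Sum.inl (ei, ej, el))
        have h9 := add_mem h7 h8
        have hnn1 : 0 ≤ W * aa p + val p (i - (ei : ℕ)) (j - (ej : ℕ)) (l - (el : ℕ)) := by
          have := aa_pos hp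
          have : 0 ≤ p * (p + 2) := by nlinarith
          unfold val; positivity
        have hnn2 := gen_nonneg hp hn (Sum.inl (ei, ej, el))
        rw [← Int.toNat_add hnn1 hnn2] at h9
        convert h9 using 2
        simp only [gen]
        unfold val; push_cast; ring
    intro x hx
    rw [mem_Gam] at hx
    rcases hx with ⟨W, i, j, l, h1, h2, h3, h4, h5, h6, h7⟩ | ⟨l, h1, h2, h3⟩
    · have hW : 0 ≤ W := by omega
      obtain ⟨w, rfl⟩ := Int.eq_ofNat_of_zero_le hW
      have := hG w i j l h1 h2 h3 h4 h5 h6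
      rw [← h7] at this
      simpa using this
    · obtain ⟨m, rfl⟩ := Int.eq_ofNat_of_zero_le h1
      have := hmem (Sum.inr ⟨m, by omega⟩)
      simp only [gen] at this
      rw [← h3] at this
      simpa using this

lemma mem_of_irred {Γ : AddSubmonoid ℕ} {t : Set ℕ} (ht : AddSubmonoid.closure t = Γ) {x : ℕ}
    (hx : x ∈ Γ) (hx0 : x ≠ 0) (hirr : ∀ u ∈ Γ, ∀ v ∈ Γ, u ≠ 0 → v ≠ 0 → x ≠ u + v) : x ∈ t := by
  have hmain : ∀ y ∈ AddSubmonoid.closure t,
      y = 0 ∨ y ∈ t ∨ ∃ u ∈ Γ, ∃ v ∈ Γ, u ≠ 0 ∧ v ≠ 0 ∧ y = u + v := by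
    intro y hy
    induction hy using AddSubmonoid.closure_induction with
    | mem y hy => exact Or.inr (Or.inl hy)
    | zero => exact Or.inl rfl
    | add a b ha hb iha ihb =>
      by_cases ha0 : a = 0
      · subst ha0; simpa using ihb
      by_cases hb0 : b = 0
      · subst hb0; simpa using iha
      right; right
      exact ⟨a, by rw [← ht]; exact ha, b, by rw [← ht]; exact hb, ha0, hb0, rfl⟩
  rcases hmain x (by rw [ht]; exact hx) with h | h | ⟨u, hu, v, hv, hu0, hv0, h⟩
  · exact absurd h hx0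
  · exact h
  · exact absurd h (hirr u hu v hv hu0 hv0)

lemma Gam_embDim {n : ℕ} (hp : 1 ≤ p) (hc : IsCoprime p (p + 2)) (hn : (n : ℤ) ≤ p + 1) :
    embDim (Gam p n hp hc hn) = 8 + n := by
  unfold embDim
  apply le_antisymm
  · apply Nat.sInf_le
    exact ⟨genSet p n, closure_genSet hp hc hn, genSet_card hp hc hn⟩
  · apply le_csInf
    · exact ⟨8 + n, genSet p n, closure_genSet hp hc hn, genSet_card hp hc hn⟩
    · rintro k ⟨t, ht, rfl⟩
      rw [← genSet_card hp hc hn]
      apply Finset.card_le_card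
      intro x hx
      simp only [genSet, Finset.mem_image, Finset.mem_univ, true_and] at hx
      obtain ⟨s, rfl⟩ := hx
      have hnn := gen_nonneg hp hn s
      have hgE := gen_inE (p := p) s
      have hpos : gen p n s ≠ 0 := by
        rcases s with e | i
        · have h1 := aa_pos hp
          have : 0 ≤ p * (p + 2) := by nlinarith
          have h2 : 0 ≤ val p (e.1 : ℕ) (e.2.1 : ℕ) (e.2.2 : ℕ) := by unfold val; positivity
          simp only [gen]; omega
        · intro h0
          apply pl_notG hp hc (l := (i : ℕ)) (by omega) (by have := i.2; omega)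
          show InG p (gen p n (Sum.inr i))
          rw [h0]; exact InG_zero p
      have := mem_of_irred (x := (gen p n s).toNat) ht (by
          rw [mem_Gam, Int.toNat_of_nonneg hnn]; exact hgE) (by omega) (by
          intro u hu v hv hu0 hv0 h
          rw [mem_Gam] at hu hv
          apply gen_irred hp hc hn s hu hv (by omega) (by omega)
          omega)
      exact this

end Pool.Agent.MP_62a449_al.Cube
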